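import Pool.Agent.Run7.h941.Final

set_option autoImplicit false

/-- The lex-plus-powers conjecture (and with it the Eisenbud-Green-Harris conjecture) for ideals of
`k[x₁,x₂,x₃]`: every field `k`, every length `c ≤ 3` of the regular sequence, all degrees
`1 ≤ d₁ ≤ … ≤ d_c`. This is word for word the posed statement with the number of variables equal
to three. -/
theorem Pool.Agent.Results.MP_6f0df1_al.ThreeVariables.result :
  ∀ (k : Type*) [Field k]
    (D : (Finset (Fin 3) → MvPolynomial (Fin 3) k) →ₗ[k] (Finset (Fin 3) → MvPolynomial (Fin 3) k)),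
    D = LinearMap.pi (fun B : Finset (Fin 3) => ∑ a ∈ Finset.univ \ B,
        (LinearMap.mulLeft k ((-1 : MvPolynomial (Fin 3) k) ^ (B.filter (fun b => b < a)).card
            * MvPolynomial.X a)) ∘ₗ
        (LinearMap.proj (R := k) (φ := fun _ : Finset (Fin 3) => MvPolynomial (Fin 3) k) (insert a B))) →
    ∀ (C : Ideal (MvPolynomial (Fin 3) k) → ℕ → ℕ → Submodule k (Finset (Fin 3) → MvPolynomial (Fin 3) k)),
    (∀ J i j, C J i j = ⨅ A : Finset (Fin 3),
        Submodule.comap (LinearMap.proj (R := k) (φ := fun _ : Finset (Fin 3) => MvPolynomial (Fin 3) k) A)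
          (if A.card = i ∧ i ≤ j then
            Submodule.restrictScalars k J ⊓ MvPolynomial.homogeneousSubmodule (Fin 3) k (j - i)
          else ⊥)) →
    ∀ (β : Ideal (MvPolynomial (Fin 3) k) → ℕ → ℕ → ℕ),
    (∀ J i j, β J i j = Module.finrank k ↥(LinearMap.ker D ⊓ C J i j)
        - Module.finrank k ↥(Submodule.map D (C J (i + 1) j))) →
    ∀ (c : ℕ) (hc : c ≤ 3) (d : Fin c → ℕ), (∀ t, 1 ≤ d t) → Monotone d →
    ∀ I : Ideal (MvPolynomial (Fin 3) k),
      (∀ p ∈ I, ∀ e : ℕ, MvPolynomial.homogeneousComponent e p ∈ I) →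
      (∃ f : Fin c → MvPolynomial (Fin 3) k, (∀ t, f t ∈ I) ∧ (∀ t, (f t).IsHomogeneous (d t)) ∧
          RingTheory.Sequence.IsRegular (MvPolynomial (Fin 3) k) (List.ofFn f)) →
      ∃ L : Ideal (MvPolynomial (Fin 3) k),
        (∃ M : Set (Fin 3 →₀ ℕ), L = Ideal.span ((fun s => MvPolynomial.monomial s (1 : k)) '' M)) ∧
        (∀ u v : Fin 3 →₀ ℕ, ∑ t, u t = ∑ t, v t →
            (∃ t, (∀ s, s < t → v s = u s) ∧ v t < u t) →
            MvPolynomial.monomial v (1 : k) ∈ L → MvPolynomial.monomial u (1 : k) ∈ L) ∧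
        (∀ e : ℕ, Module.finrank k ↥(Submodule.restrictScalars k
              (L + Ideal.span (Set.range fun t : Fin c => MvPolynomial.X (Fin.castLE hc t) ^ d t))
              ⊓ MvPolynomial.homogeneousSubmodule (Fin 3) k e)
            = Module.finrank k ↥(Submodule.restrictScalars k I
              ⊓ MvPolynomial.homogeneousSubmodule (Fin 3) k e)) ∧
        ∀ i j, β I i j ≤ β (L + Ideal.span (Set.range fun t : Fin c =>
            MvPolynomial.X (Fin.castLE hc t) ^ d t)) i j := by
  intro k _ D hD C hC β hβ c hc d hd1 hdm I _ hex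
  exact Run7.H941.lpp_three k D hD C hC β hβ c hc d hd1 hdm I hex
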